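import Pool.Agent.H212.KR.Final2
import Pool.Agent.H212.KR.Expo

/-!
# Area of the random Julia sets of the complex Kan skew product: every real coupling, every base degree

Q1 of MP_ed045b_an for real `α`, `0 < |α| < 1`, and every integer base degree `L > 1`: for almost every `u` the random Julia set
has zero area, and almost every point of the plane is attracted by `0`, `1` or `∞`.

The proof: (1) for fixed `z` and almost every `u`, an orbit that is asymptotically real over the base fixed point `0` (at times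
with a good exit) is attracted: Poisson inequality for the entire functions `u ↦ f_u^n z`, shrinking targets for `u ↦ L u`,
and a two-constants argument over many scales.  (2) Inverse branches of `f_u^n` are defined on the half planes, because the critical
values are real; Koebe's theorem shows that the non attracted set over `u` is porous at the points whose orbit is not
asymptotically real, so these form a null set.
-/

set_option autoImplicit false

namespace Pool.Agent.Results.MP_ed045b_an.RealCoupling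

open Filter Topology MeasureTheory

/-- The fibre map `f_u(z) = z + α cos(2πu) z (1 - z)`. -/
noncomputable def fibre (α : ℂ) (u : ℝ) (z : ℂ) : ℂ :=
  z + α * ((Real.cos (2 * Real.pi * u) : ℝ) : ℂ) * z * (1 - z)

/-- The fibre iterates `f_u^n`; the base map is `u ↦ L u` (the fibre maps are `1`-periodic in `u`,
so no reduction mod `1` is needed). -/
noncomputable def orbit (L : ℕ) (α : ℂ) (u : ℝ) : ℕ → ℂ → ℂ
  | 0, z => z
  | n + 1, z => fibre α ((L : ℝ) ^ n * u) (orbit L α u n z)

/-- The chordal (spherical) distance on the plane. -/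
noncomputable def chord (a b : ℂ) : ℝ :=
  2 * ‖a - b‖ / (Real.sqrt (1 + ‖a‖ ^ 2) * Real.sqrt (1 + ‖b‖ ^ 2))

/-- `z` is in the random Fatou set over `u`: on a neighbourhood of `z` every subsequence of the
fibre iterates has a further subsequence that is uniformly Cauchy in the spherical distance on
compact sets. -/
def NormalAt (L : ℕ) (α : ℂ) (u : ℝ) (z : ℂ) : Prop :=
  ∃ U : Set ℂ, IsOpen U ∧ z ∈ U ∧
    ∀ φ : ℕ → ℕ, StrictMono φ → ∃ ψ : ℕ → ℕ, StrictMono ψ ∧
      ∀ K : Set ℂ, K ⊆ U → IsCompact K → ∀ ε : ℝ, 0 < ε →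
        ∃ N : ℕ, ∀ m ≥ N, ∀ n ≥ N, ∀ w ∈ K,
          chord (orbit L α u (φ (ψ m)) w) (orbit L α u (φ (ψ n)) w) < ε

/-- The finite part of the random Julia set over `u`. -/
def julia (L : ℕ) (α : ℂ) (u : ℝ) : Set ℂ := {z | ¬ NormalAt L α u z}

open Pool.Agent.TH229.Kan

lemma orbit_eq (L : ℕ) (α : ℂ) (u : ℝ) (n : ℕ) (z : ℂ) : orbit L α u n z = Phi L α z n u := by
  induction n with
  | zero => rfl
  | succ n ih => rw [orbit, ih, Phi_succ, cc_cr, fibre, cr]

lemma normal_of {L : ℕ} {α : ℂ} {u : ℝ} {z : ℂ}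
    (h : ∃ U : Set ℂ, IsOpen U ∧ z ∈ U ∧ ∀ ε : ℝ, 0 < ε → ∃ N, ∀ m ≥ N, ∀ n ≥ N, ∀ w ∈ U,
      dd (Phi L α w m u) (Phi L α w n u) < ε) : NormalAt L α u z := by
  obtain ⟨U, hU1, hU2, hU3⟩ := h
  refine ⟨U, hU1, hU2, fun φ hφ => ⟨id, strictMono_id, fun K hK _ ε hε => ?_⟩⟩
  obtain ⟨N, hN⟩ := hU3 ε hε
  refine ⟨N, fun m hm n hn w hw => ?_⟩
  have h3 := hN (φ m) (hm.trans (hφ.id_le m)) (φ n) (hn.trans (hφ.id_le n)) w (hK hw)
  rw [orbit_eq, orbit_eq]
  exact h3

lemma Phi_symm (L : ℕ) (α z : ℂ) (n : ℕ) (x : ℂ) :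
    Phi L (-α) (1 - z) n x = 1 - Phi L α z n x := by
  induction n with
  | zero => rfl
  | succ n ih =>
    rw [Phi_succ, Phi_succ, ih]
    ring

lemma Absorbed_symm {L : ℕ} {α z : ℂ} {u : ℝ} (h : Absorbed L α z u) :
    Absorbed L (-α) (1 - z) u := by
  unfold Absorbed at *
  simp only [Phi_symm]
  rcases h with h | h | h
  · right; left
    have := (tendsto_const_nhds (x := (1 : ℂ))).sub h
    simpa using this
  · left
    have := (tendsto_const_nhds (x := (1 : ℂ))).sub h
    simpa using this
  · right; right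
    have h2 : Tendsto (fun n => ‖Phi L α z n u‖ - 1) atTop atTop :=
      tendsto_atTop_add_const_right _ _ h
    refine tendsto_atTop_mono (fun n => ?_) h2
    have := norm_sub_norm_le (Phi L α z n u) 1
    rw [norm_one, norm_sub_rev] at this
    exact this

lemma null_all {L : ℕ} (hL : 2 ≤ L) {α : ℝ} (h0 : α ≠ 0) (h1 : |α| < 1) :
    ∀ᵐ u : ℝ, volume {z : ℂ | ¬ Absorbed L (α : ℂ) z u} = 0 := by
  rcases lt_or_gt_of_ne h0 with h | h
  · have h2 := Pool.Agent.H212.KR.f_AREA L hL (-α) (by linarith) (by rw [abs_of_neg h] at h1; exact h1)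
    filter_upwards [h2] with u hu
    have hmp : MeasurePreserving (fun z : ℂ => 1 - z) volume volume := by
      have h7 := (measurePreserving_add_left (volume : Measure ℂ) (1 : ℂ)).comp
        (Measure.measurePreserving_neg (volume : Measure ℂ))
      have h8 : ((fun x : ℂ => 1 + x) ∘ Neg.neg) = fun z : ℂ => 1 - z := by
        funext z
        simp [sub_eq_add_neg]
      rwa [h8] at h7
    have h3 := (hmp.quasiMeasurePreserving).preimage_null hu
    refine measure_mono_null ?_ h3
    intro z hz ha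
    apply hz
    have := Absorbed_symm ha
    simpa using this
  · exact Pool.Agent.H212.KR.f_AREA L hL α h (by rw [abs_of_pos h] at h1; exact h1)

/-- For every integer `L > 1` and every real `α` with `0 < |α| < 1`, for almost every `u` the random Julia set over `u` has
zero area, and almost every `z` in the plane is attracted by `0`, `1` or `∞`. -/
theorem result : ∀ L : ℕ, 1 < L → ∀ α : ℝ, α ≠ 0 → |α| < 1 →
    ∀ᵐ u : ℝ, volume (julia L (α : ℂ) u) = 0 ∧
      ∀ᵐ z : ℂ, Tendsto (fun n => orbit L (α : ℂ) u n z) atTop (𝓝 0) ∨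
        Tendsto (fun n => orbit L (α : ℂ) u n z) atTop (𝓝 1) ∨
        Tendsto (fun n => ‖orbit L (α : ℂ) u n z‖) atTop atTop := by
  intro L hL α h0 h1
  have hα0 : 0 < ‖(α : ℂ)‖ := by
    rw [Complex.norm_real, Real.norm_eq_abs]
    exact abs_pos.2 h0
  have hα : ‖(α : ℂ)‖ < 1 := by
    rw [Complex.norm_real, Real.norm_eq_abs]
    exact h1
  have e0 := Pool.Agent.H212.KR.Expo.neg_exponent h0 h1
  have e1 : ∫ u in (0 : ℝ)..1, Real.log ‖1 - (α : ℂ) * ((Real.cos (2 * Real.pi * u) : ℝ) : ℂ)‖ < 0 := by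
    rw [exponents_eq]
    exact e0
  obtain ⟨θ, hθ0, hθ, hGS⟩ := ae_GS (L := L) (by omega) hα e0 e1
  have hio := ae_KK (L := L) (by omega) hθ0 hGS
  filter_upwards [hio, null_all hL h0 h1] with u ⟨i, hi⟩ hu2
  refine ⟨measure_mono_null ?_ hu2, ?_⟩
  · intro z hz habs
    exact hz (normal_of (local_cauchy hα0 hα hθ0 hθ hi habs))
  · rw [ae_iff]
    refine measure_mono_null ?_ hu2
    intro z hz habs
    apply hz
    simp_rw [orbit_eq]
    exact habs

end Pool.Agent.Results.MP_ed045b_an.RealCoupling
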